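import Mathlib

namespace Pool.Agent.Results.MP_e65cda_an.OnlyTwo

/-- `p` is good: for every nonnegative coefficient sequence of least period `p`, every positive
solution is bounded. -/
def Good (p : ℕ) : Prop :=
  ∀ α : ℕ → ℝ, (∀ n, 0 ≤ α n) → (∀ n, α (n + p) = α n) →
    (∀ q, 0 < q → q < p → ¬ ∀ n, α (n + q) = α n) →
    ∀ x : ℕ → ℝ, 0 < x 0 → 0 < x 1 → (∀ n, x (n + 2) = (α n + x (n + 1)) / x n) →
      BddAbove (Set.range x)

/-- One step of the recursion on pairs. -/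
noncomputable def step (s : ℝ × ℝ) (a : ℝ) : ℝ × ℝ := (s.2, (a + s.2) / s.1)

/-- Several steps. -/
noncomputable def run (l : List ℝ) (s : ℝ × ℝ) : ℝ × ℝ := l.foldl step s

lemma run_append (l m : List ℝ) (s : ℝ × ℝ) : run (l ++ m) s = run m (run l s) :=
  List.foldl_append

lemma run_pos (l : List ℝ) (hl : ∀ a ∈ l, 0 ≤ a) (s : ℝ × ℝ) (h1 : 0 < s.1) (h2 : 0 < s.2) :
    0 < (run l s).1 ∧ 0 < (run l s).2 := by
  induction l generalizing s with
  | nil => exact ⟨h1, h2⟩
  | cons a l ih =>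
    have := hl a List.mem_cons_self
    exact ih (fun b hb => hl b (List.mem_cons_of_mem _ hb)) (step s a) h2
      (by simp only [step]; positivity)

lemma run_zero (b : ℕ) (s : ℝ × ℝ) (h1 : 0 < s.1) (h2 : 0 < s.2) :
    run (List.replicate (6 * b) 0) s = s := by
  induction b with
  | zero => rfl
  | succ b ih =>
    rw [show 6 * (b + 1) = 6 * b + 6 by ring, List.replicate_add, run_append, ih]
    obtain ⟨x, y⟩ := s
    simp only at h1 h2
    simp only [run, List.replicate, List.foldl, step, zero_add]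
    ext <;> simp only <;> field_simp

lemma run_one (s : ℝ × ℝ) (h1 : 0 < s.1) (h2 : 0 < s.2) : run [1, 1, 1, 1, 1] s = s := by
  obtain ⟨x, y⟩ := s
  simp only at h1 h2
  have e2 : (1 + (1 + y) / x) / y = (1 + x + y) / (x * y) := by field_simp; ring
  have e3 : (1 + (1 + x + y) / (x * y)) / ((1 + y) / x) = (1 + x) / y := by field_simp; ring
  have e4 : (1 + (1 + x) / y) / ((1 + x + y) / (x * y)) = x := by field_simp; ring
  have e5 : (1 + x) / ((1 + x) / y) = y := by field_simp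
  simp only [run, List.foldl, step, e2, e3, e4, e5]

lemma not_good (l : List ℝ) (hl : ∀ a ∈ l, 0 ≤ a) (h2 : (2 : ℝ) ∉ l) (s : ℝ × ℝ) (s1 : 0 < s.1)
    (s2 : 0 < s.2) (hu : ∀ B : ℝ, ∃ k, B < ((run (2 :: l))^[k] s).1 ∨
      B < ((run (2 :: l))^[k] s).2 ∨ B * ((run (2 :: l))^[k] s).1 < 1) :
    ¬ Good (l.length + 1) := by
  intro hg
  set w : List ℝ := 2 :: l with hw
  have hw0 : ∀ a ∈ w, 0 ≤ a := by
    intro a ha
    rcases List.mem_cons.1 ha with rfl | ha
    · norm_num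
    · exact hl a ha
  set p := l.length + 1 with hp
  have hp0 : 0 < p := by omega
  have hwl : w.length = p := by simp [hw, hp]
  let α : ℕ → ℝ := fun n => w.getD (n % p) 0
  have hα : ∀ n, α n = w[n % p]'(by rw [hwl]; exact Nat.mod_lt _ hp0) := fun n =>
    List.getD_eq_getElem _ _ _
  let S : ℕ → ℝ × ℝ := fun n => Nat.rec s (fun n t => step t (α n)) n
  have hS : ∀ n, S (n + 1) = step (S n) (α n) := fun n => rfl
  have hrun : ∀ m : List ℝ, ∀ n, (∀ j, j < m.length → α (n + j) = m.getD j 0) →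
      S (n + m.length) = run m (S n) := by
    intro m
    induction m with
    | nil => intro n _; rfl
    | cons a m ih =>
      intro n h
      have h0 : α n = a := by simpa using h 0 (by simp)
      rw [List.length_cons, show n + (m.length + 1) = n + 1 + m.length by ring, ih (n + 1), hS, h0]
      · rfl
      · intro j hj
        have := h (j + 1) (by simpa using hj)
        rw [show n + 1 + j = n + (j + 1) by ring, this]
        simp
  have hk : ∀ k, S (p * k) = (run w)^[k] s := by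
    intro k
    induction k with
    | zero => rfl
    | succ k ih =>
      rw [Function.iterate_succ_apply', ← ih, Nat.mul_succ, ← hrun w, hwl]
      intro j hj
      simp only [α]
      rw [Nat.mul_add_mod, Nat.mod_eq_of_lt (hwl ▸ hj)]
  have hpos : ∀ n, 0 < (S n).1 ∧ 0 < (S n).2 := by
    intro n
    induction n with
    | zero => exact ⟨s1, s2⟩
    | succ n ih =>
      have : 0 ≤ α n := by rw [hα]; exact hw0 _ (List.getElem_mem _)
      obtain ⟨a, b⟩ := ih
      exact ⟨b, by simp only [hS, step]; positivity⟩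
  obtain ⟨B, hB⟩ := hg α (fun n => by rw [hα]; exact hw0 _ (List.getElem_mem _))
    (fun n => by simp [α]) (by
      intro q q0 q1 h
      have h1 := h 0
      simp only [α, zero_add, Nat.zero_mod, Nat.mod_eq_of_lt q1] at h1
      obtain ⟨r, rfl⟩ : ∃ r, q = r + 1 := ⟨q - 1, by omega⟩
      simp only [hw, List.getD_cons_succ, List.getD_cons_zero] at h1
      rw [List.getD_eq_getElem _ _ (by omega)] at h1
      exact h2 (h1 ▸ List.getElem_mem _))
    (fun n => (S n).1) s1 s2 (fun n => rfl)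
  have hB' : ∀ n, (S n).1 ≤ B := fun n => hB ⟨n, rfl⟩
  obtain ⟨k, hk'⟩ := hu B
  rw [← hk] at hk'
  rcases hk' with h | h | h
  · linarith [hB' (p * k)]
  · exact absurd (hB' (p * k + 1)) (not_le.2 h)
  · have h1 : (α (p * k) + (S (p * k)).2) / (S (p * k)).1 ≤ B := hB' (p * k + 2)
    have h3 : α (p * k) = 2 := by simp [α, hw]
    rw [h3, div_le_iff₀ (hpos _).1] at h1
    linarith [(hpos (p * k)).2]

lemma small (G : ℝ × ℝ → ℝ × ℝ) (I : ℝ × ℝ → Prop) (m : ℕ) (s : ℝ × ℝ) (hs : I s)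
    (h1 : s.1 ≤ 1) (hp : ∀ t, I t → 0 < t.1)
    (h : ∀ t, I t → I (G^[m] t) ∧ (G^[m] t).1 ≤ t.1 / 2) (B : ℝ) :
    ∃ k, B < (G^[k] s).1 ∨ B < (G^[k] s).2 ∨ B * (G^[k] s).1 < 1 := by
  have key : ∀ k : ℕ, I (G^[m * k] s) ∧ (G^[m * k] s).1 * 2 ^ k ≤ 1 := by
    intro k
    induction k with
    | zero => simpa using ⟨hs, h1⟩
    | succ k ih =>
      rw [show m * (k + 1) = m + m * k by ring, Function.iterate_add_apply]
      obtain ⟨a, b⟩ := h _ ih.1
      refine ⟨a, ?_⟩
      have : (0 : ℝ) < 2 ^ k := by positivity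
      rw [pow_succ]
      nlinarith [ih.2]
  obtain ⟨k, hk⟩ := pow_unbounded_of_one_lt B (one_lt_two (α := ℝ))
  refine ⟨m * k, Or.inr (Or.inr ?_)⟩
  have := hp _ (key k).1
  nlinarith [(key k).2]

lemma tail_cases (l m : List ℝ) (hl : ∀ a ∈ l, 0 ≤ a) (hl2 : (2 : ℝ) ∉ l) (b : ℕ)
    (hm : m = [] ∨ m = [1, 1, 1, 1, 1]) :
    (∀ a ∈ l ++ List.replicate (6 * b) 0 ++ m, 0 ≤ a) ∧
    (2 : ℝ) ∉ l ++ List.replicate (6 * b) 0 ++ m ∧
    ∀ t : ℝ × ℝ, 0 < t.1 → 0 < t.2 →
      run (2 :: (l ++ List.replicate (6 * b) 0 ++ m)) t = run (2 :: l) t := by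
  refine ⟨?_, ?_, ?_⟩
  · intro a ha
    simp only [List.mem_append, List.mem_replicate] at ha
    rcases ha with (ha | ha) | ha
    · exact hl a ha
    · exact ha.2.ge
    · rcases hm with rfl | rfl
      · simp at ha
      · simp at ha; rw [ha]; norm_num
  · intro ha
    simp only [List.mem_append, List.mem_replicate] at ha
    rcases ha with (ha | ha) | ha
    · exact hl2 ha
    · norm_num at ha
    · rcases hm with rfl | rfl <;> simp at ha
  · intro t t1 t2
    have := run_pos (2 :: l) (by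
      intro a ha
      rcases List.mem_cons.1 ha with rfl | ha
      · norm_num
      · exact hl a ha) t t1 t2
    rw [← List.cons_append, ← List.cons_append, run_append, run_append, run_zero _ _ this.1 this.2]
    rcases hm with rfl | rfl
    · rfl
    · exact run_one _ this.1 this.2

lemma not_good' (l : List ℝ) (hl : ∀ a ∈ l, 0 ≤ a) (h2 : (2 : ℝ) ∉ l) (s : ℝ × ℝ) (s1 : 0 < s.1)
    (s2 : 0 < s.2) (hu : ∀ B : ℝ, ∃ k, B < ((run (2 :: l))^[k] s).1 ∨
      B < ((run (2 :: l))^[k] s).2 ∨ B * ((run (2 :: l))^[k] s).1 < 1) (b : ℕ) :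
    ¬ Good (l.length + 6 * b + 1) ∧ ¬ Good (l.length + 6 * b + 5 + 1) := by
  have main : ∀ m : List ℝ, (m = [] ∨ m = [1, 1, 1, 1, 1]) →
      ¬ Good ((l ++ List.replicate (6 * b) 0 ++ m).length + 1) := by
    intro m hm
    obtain ⟨a1, a2, a3⟩ := tail_cases l m hl h2 b hm
    refine not_good _ a1 a2 s s1 s2 fun B => ?_
    have : ∀ k, (run (2 :: (l ++ List.replicate (6 * b) 0 ++ m)))^[k] s = (run (2 :: l))^[k] s ∧
        0 < ((run (2 :: l))^[k] s).1 ∧ 0 < ((run (2 :: l))^[k] s).2 := by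
      intro k
      induction k with
      | zero => exact ⟨rfl, s1, s2⟩
      | succ k ih =>
        rw [Function.iterate_succ_apply', Function.iterate_succ_apply', ih.1]
        refine ⟨a3 _ ih.2.1 ih.2.2, run_pos _ ?_ _ ih.2.1 ih.2.2⟩
        intro a ha
        rcases List.mem_cons.1 ha with rfl | ha
        · norm_num
        · exact hl a ha
    obtain ⟨k, hk⟩ := hu B
    exact ⟨k, by rw [(this k).1]; exact hk⟩
  exact ⟨by simpa using main [] (Or.inl rfl), by simpa [add_assoc] using main _ (Or.inr rfl)⟩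

lemma three (b : ℕ) : ¬ Good (2 + 6 * b + 1) ∧ ¬ Good (2 + 6 * b + 5 + 1) := by
  refine not_good' [0, 0] (by simp) (by simp) (1, 1 / 2) (by norm_num) (by norm_num)
    (small _ (fun t => 0 < t.1 ∧ t.2 = 1 / 2) 2 _ (by norm_num) (by norm_num) (fun t h => h.1) ?_) b
  rintro ⟨x, y⟩ ⟨hx, hy⟩
  simp only at hx hy
  subst hy
  have : (run [2, 0, 0])^[2] (x, 1 / 2) = (2 / 5 * x, 1 / 2) := by
    simp only [Function.iterate_succ, Function.iterate_zero, Function.comp, id, run, List.foldl,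
      step, zero_add]
    ext <;> simp only <;> field_simp <;> ring
  rw [this]
  exact ⟨⟨by positivity, rfl⟩, by simp only; linarith⟩

lemma five (b : ℕ) : ¬ Good (4 + 6 * b + 1) ∧ ¬ Good (4 + 6 * b + 5 + 1) := by
  refine not_good' [0, 0, 0, 0] (by simp) (by simp) (1, 1) (by norm_num) (by norm_num)
    (small _ (fun t => 0 < t.1 ∧ 0 < t.2) 1 _ (by norm_num) (by norm_num) (fun t h => h.1) ?_) b
  rintro ⟨x, y⟩ ⟨hx, hy⟩
  simp only at hx hy
  have : (run [2, 0, 0, 0, 0])^[1] (x, y) = (x / (2 + y), x * y / (2 + y)) := by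
    simp only [Function.iterate_one, run, List.foldl, step, zero_add]
    ext <;> simp only <;> field_simp
  rw [this]
  exact ⟨⟨by positivity, by positivity⟩, by simp only; gcongr; linarith⟩

lemma six (b : ℕ) : ¬ Good (5 + 6 * b + 1) := by
  refine (not_good' [0, 0, 0, 0, 0] (by simp) (by simp) (1, 2) (by norm_num) (by norm_num)
    (small _ (fun t => 0 < t.1 ∧ t.2 = 2) 1 _ (by norm_num) (by norm_num) (fun t h => h.1) ?_) b).1
  rintro ⟨x, y⟩ ⟨hx, hy⟩
  simp only at hx hy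
  subst hy
  have : (run [2, 0, 0, 0, 0, 0])^[1] (x, 2) = (x / 2, 2) := by
    simp only [Function.iterate_one, run, List.foldl, step, zero_add]
    ext <;> simp only <;> field_simp <;> ring
  rw [this]
  exact ⟨⟨by positivity, rfl⟩, le_rfl⟩

/-- Additive closeness of a logarithm. -/
def Q (e x X : ℝ) : Prop := 0 < x ∧ X - e ≤ Real.log x ∧ Real.log x ≤ X + e

lemma Q.cg {e x X : ℝ} (h : Q e x X) (e' : ℝ) (he : e ≤ e') (X' : ℝ) (hX : X = X') :
    Q e' x X' := ⟨h.1, by linarith [h.2.1], by linarith [h.2.2]⟩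

lemma Q.stepL {e f x y X Y : ℝ} (hy : Q e y Y) (hx : Q f x X) : Q (e + f) ((0 + y) / x) (Y - X) := by
  obtain ⟨a1, a2, a3⟩ := hy
  obtain ⟨b1, b2, b3⟩ := hx
  rw [zero_add]
  refine ⟨by positivity, ?_, ?_⟩ <;> rw [Real.log_div a1.ne' b1.ne'] <;> linarith

lemma log3 : Real.log 3 ≤ 2 := by linarith [Real.log_le_sub_one_of_pos (show (0 : ℝ) < 3 by norm_num)]

lemma Q.stepP {e f x y X Y a : ℝ} (hy : Q e y Y) (hx : Q f x X) (h1 : 1 ≤ a) (h2 : a ≤ 2)
    (h : e ≤ Y) : Q (e + f + 2) ((a + y) / x) (Y - X) := by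
  obtain ⟨a1, a2, a3⟩ := hy
  obtain ⟨b1, b2, b3⟩ := hx
  have y1 : 1 ≤ y := by
    by_contra hc
    linarith [Real.log_neg a1 (not_le.1 hc)]
  have l1 : Real.log y ≤ Real.log (a + y) := Real.log_le_log a1 (by linarith)
  have l2 : Real.log (a + y) ≤ Real.log (3 * y) := Real.log_le_log (by linarith) (by linarith)
  rw [Real.log_mul (by norm_num) a1.ne'] at l2
  have := log3
  refine ⟨by positivity, ?_, ?_⟩ <;> rw [Real.log_div (by positivity) b1.ne'] <;> linarith

lemma Q.stepM {e f x y X Y a : ℝ} (hy : Q e y Y) (hx : Q f x X) (h1 : 1 ≤ a) (h2 : a ≤ 2)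
    (h : Y ≤ -e) : Q (f + 2) ((a + y) / x) (-X) := by
  obtain ⟨a1, a2, a3⟩ := hy
  obtain ⟨b1, b2, b3⟩ := hx
  have y1 : y ≤ 1 := by
    by_contra hc
    linarith [Real.log_pos (not_le.1 hc)]
  have l1 : 0 ≤ Real.log (a + y) := Real.log_nonneg (by linarith)
  have l2 : Real.log (a + y) ≤ Real.log 3 := Real.log_le_log (by linarith) (by linarith)
  have := log3
  refine ⟨by positivity, ?_, ?_⟩ <;> rw [Real.log_div (by positivity) b1.ne'] <;> linarith

lemma core7 (x y s t : ℝ) (q0 : Q 0 x s) (q1 : Q 0 y t) (h1 : 10000 ≤ t) (h2 : t + 10000 ≤ s) :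
    Q 2000 ((run [2, 0, 1, 0, 1, 1, 0])^[3] (x, y)).1 (3 * s - t) ∧
    Q 2000 ((run [2, 0, 1, 0, 1, 1, 0])^[3] (x, y)).2 s := by
  have q2 := (q1.stepP q0 (a := 2) (by norm_num) (by norm_num) (by linarith)).cg
    2 (by norm_num) ((-1) * s + (1) * t) (by ring)
  have q3 := (q2.stepL q1).cg
    2 (by norm_num) ((-1) * s + (0) * t) (by ring)
  have q4 := (q3.stepM q2 (a := 1) (by norm_num) (by norm_num) (by linarith)).cg
    4 (by norm_num) ((1) * s + (-1) * t) (by ring)
  have q5 := (q4.stepL q3).cg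
    6 (by norm_num) ((2) * s + (-1) * t) (by ring)
  have q6 := (q5.stepP q4 (a := 1) (by norm_num) (by norm_num) (by linarith)).cg
    12 (by norm_num) (1 * s + 0 * t) (by ring)
  have q7 := (q6.stepP q5 (a := 1) (by norm_num) (by norm_num) (by linarith)).cg
    20 (by norm_num) ((-1) * s + (1) * t) (by ring)
  have q8 := (q7.stepL q6).cg
    32 (by norm_num) ((-2) * s + (1) * t) (by ring)
  have q9 := (q8.stepM q7 (a := 2) (by norm_num) (by norm_num) (by linarith)).cg
    22 (by norm_num) ((1) * s + (-1) * t) (by ring)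
  have q10 := (q9.stepL q8).cg
    54 (by norm_num) ((3) * s + (-2) * t) (by ring)
  have q11 := (q10.stepP q9 (a := 1) (by norm_num) (by norm_num) (by linarith)).cg
    78 (by norm_num) ((2) * s + (-1) * t) (by ring)
  have q12 := (q11.stepL q10).cg
    132 (by norm_num) ((-1) * s + (1) * t) (by ring)
  have q13 := (q12.stepM q11 (a := 1) (by norm_num) (by norm_num) (by linarith)).cg
    80 (by norm_num) ((-2) * s + (1) * t) (by ring)
  have q14 := (q13.stepM q12 (a := 1) (by norm_num) (by norm_num) (by linarith)).cg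
    134 (by norm_num) ((1) * s + (-1) * t) (by ring)
  have q15 := (q14.stepL q13).cg
    214 (by norm_num) ((3) * s + (-2) * t) (by ring)
  have q16 := (q15.stepP q14 (a := 2) (by norm_num) (by norm_num) (by linarith)).cg
    350 (by norm_num) ((2) * s + (-1) * t) (by ring)
  have q17 := (q16.stepL q15).cg
    564 (by norm_num) ((-1) * s + (1) * t) (by ring)
  have q18 := (q17.stepM q16 (a := 1) (by norm_num) (by norm_num) (by linarith)).cg
    352 (by norm_num) ((-2) * s + (1) * t) (by ring)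
  have q19 := (q18.stepL q17).cg
    916 (by norm_num) ((-1) * s + (0) * t) (by ring)
  have q20 := (q19.stepM q18 (a := 1) (by norm_num) (by norm_num) (by linarith)).cg
    354 (by norm_num) ((2) * s + (-1) * t) (by ring)
  have q21 := (q20.stepP q19 (a := 1) (by norm_num) (by norm_num) (by linarith)).cg
    1272 (by norm_num) ((3) * s + (-1) * t) (by ring)
  have q22 := (q21.stepL q20).cg
    1626 (by norm_num) (1 * s + 0 * t) (by ring)
  exact ⟨q21.cg _ (by norm_num) _ (by ring), q22.cg _ (by norm_num) _ (by ring)⟩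

lemma seven (b : ℕ) : ¬ Good (6 + 6 * b + 1) := by
  refine (not_good' [0, 1, 0, 1, 1, 0] (by simp) (by simp) (Real.exp 20000, Real.exp 10000)
    (Real.exp_pos _) (Real.exp_pos _) (fun B => ?_) b).1
  set G := run [2, 0, 1, 0, 1, 1, 0]
  have key : ∀ k : ℕ, 0 < (G^[3 * k] (Real.exp 20000, Real.exp 10000)).1 ∧
      0 < (G^[3 * k] (Real.exp 20000, Real.exp 10000)).2 ∧
      10000 + k ≤ Real.log (G^[3 * k] (Real.exp 20000, Real.exp 10000)).2 ∧
      Real.log (G^[3 * k] (Real.exp 20000, Real.exp 10000)).2 + 10000 ≤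
        Real.log (G^[3 * k] (Real.exp 20000, Real.exp 10000)).1 := by
    intro k
    induction k with
    | zero => simp [Real.exp_pos]; norm_num
    | succ k ih =>
      rw [show 3 * (k + 1) = 3 + 3 * k by ring, Function.iterate_add_apply]
      obtain ⟨a, b, c, d⟩ := ih
      have hk : (0 : ℝ) ≤ k := by positivity
      obtain ⟨⟨u1, u2, -⟩, ⟨v1, v2, v3⟩⟩ := core7 _ _ _ _ ⟨a, by simp, by simp⟩ ⟨b, by simp, by simp⟩
        (by linarith) d
      refine ⟨u1, v1, ?_, ?_⟩
      · push_cast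
        exact le_trans (by linarith) v2
      · exact le_trans (by linarith) u2
  obtain ⟨k, hk⟩ := exists_nat_gt B
  obtain ⟨-, b, c, -⟩ := key k
  refine ⟨3 * k, Or.inr (Or.inl ?_)⟩
  linarith [Real.log_le_sub_one_of_pos b]

/-- Multiplicative closeness. -/
def R (s : ℝ) (k : ℕ) (x y : ℝ) : Prop :=
  0 < x ∧ 0 < y ∧ x ≤ Real.exp (k * s) * y ∧ y ≤ Real.exp (k * s) * x

lemma R.cg {s x y : ℝ} {k : ℕ} (h : R s k x y) (hs : 0 ≤ s) (l : ℕ) (hl : k ≤ l) (z : ℝ)
    (hz : y = z) : R s l x z := by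
  subst hz
  obtain ⟨a, b, c, d⟩ := h
  have : Real.exp (k * s) ≤ Real.exp (l * s) := by gcongr
  exact ⟨a, b, c.trans (by gcongr), d.trans (by gcongr)⟩

lemma R.div {s x y x' y' : ℝ} {k l : ℕ} (h : R s k x x') (g : R s l y y') :
    R s (k + l) (x / y) (x' / y') := by
  obtain ⟨a, b, c, d⟩ := h
  obtain ⟨a', b', c', d'⟩ := g
  have e : Real.exp (((k + l : ℕ) : ℝ) * s) = Real.exp (k * s) * Real.exp (l * s) := by
    rw [← Real.exp_add]; push_cast; ring_nf
  refine ⟨by positivity, by positivity, ?_, ?_⟩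
  · rw [e, ← mul_div_assoc, div_le_div_iff₀ a' b']
    calc x * y' ≤ (Real.exp (k * s) * x') * (Real.exp (l * s) * y) := by gcongr
      _ = _ := by ring
  · rw [e, ← mul_div_assoc, div_le_div_iff₀ b' a']
    calc x' * y ≤ (Real.exp (k * s) * x) * (Real.exp (l * s) * y') := by gcongr
      _ = _ := by ring

lemma R.addc {s x y a : ℝ} {k : ℕ} (h : R s k x y) (hs : 0 ≤ s) (ha : 0 ≤ a) :
    R s k (a + x) (a + y) := by
  obtain ⟨h1, h2, h3, h4⟩ := h
  have : 1 ≤ Real.exp (k * s) := Real.one_le_exp (by positivity)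
  exact ⟨by positivity, by positivity, by nlinarith, by nlinarith⟩

lemma exp_succ (s : ℝ) (hs : 0 ≤ s) (k : ℕ) : 1 ≤ Real.exp (k * s) ∧
    Real.exp (k * s) * (1 + s) ≤ Real.exp (((k + 1 : ℕ) : ℝ) * s) := by
  refine ⟨Real.one_le_exp (by positivity), ?_⟩
  push_cast
  rw [add_mul, one_mul, Real.exp_add]
  gcongr
  linarith [Real.add_one_le_exp s]

lemma R.absL {s x y a : ℝ} {k : ℕ} (h : R s k x y) (hs : 0 ≤ s) (ha : 0 ≤ a) (hb : a ≤ s * y) :
    R s (k + 1) (a + x) y := by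
  obtain ⟨h1, h2, h3, h4⟩ := h
  obtain ⟨e1, e2⟩ := exp_succ s hs k
  set E := Real.exp (k * s)
  set E' := Real.exp (((k + 1 : ℕ) : ℝ) * s)
  have e3 : E ≤ E' := by nlinarith
  refine ⟨by positivity, h2, ?_, ?_⟩
  · nlinarith [mul_le_mul_of_nonneg_right e2 h2.le, mul_nonneg (sub_nonneg.2 e1) (mul_nonneg hs h2.le)]
  · nlinarith [mul_le_mul_of_nonneg_right e3 h1.le, mul_nonneg (zero_le_one.trans (e1.trans e3)) ha]

lemma R.absR {s x y a : ℝ} {k : ℕ} (h : R s k x y) (hs : 0 ≤ s) (ha : 0 < a) (hb : y ≤ s * a) :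
    R s (k + 1) (a + x) a := by
  obtain ⟨h1, h2, h3, h4⟩ := h
  obtain ⟨e1, e2⟩ := exp_succ s hs k
  set E := Real.exp (k * s)
  set E' := Real.exp (((k + 1 : ℕ) : ℝ) * s)
  have e3 : E ≤ E' := by nlinarith
  refine ⟨by positivity, ha, ?_, ?_⟩
  · nlinarith [mul_le_mul_of_nonneg_right e2 ha.le, mul_nonneg (sub_nonneg.2 e1) ha.le,
      mul_le_mul_of_nonneg_left hb (zero_le_one.trans e1)]
  · nlinarith [mul_nonneg (sub_nonneg.2 (e1.trans e3)) (add_pos ha h1).le]

lemma core4 (u M : ℝ) (hu : 2 ≤ u) (hu' : u ≤ 4) (hM : 1 ≤ M) :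
    R (100 / M) 1211 ((run [2, 0, 1 / 4, 0])^[4] (u, M)).1 u ∧
    R (100 / M) 1211 ((run [2, 0, 1 / 4, 0])^[4] (u, M)).2
      ((1 / 4 + 4 * u) * M / (2 * (u / 4 + 1))) := by
  have hM0 : 0 < M := by linarith
  have hu0 : 0 < u := by linarith
  have hs : 0 ≤ 100 / M := by positivity
  have r0 : R (100 / M) 0 u u := ⟨hu0, hu0, by simp, by simp⟩
  have r1 : R (100 / M) 0 M M := ⟨hM0, hM0, by simp, by simp⟩
  have c2 : (2 : ℝ) ≤ 100 / M * (M) := by
    rw [div_mul_cancel₀ _ hM0.ne']; norm_num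
  have r2 := ((r1.absL hs (a := 2) (by norm_num) c2).div r0).cg hs 1 (by norm_num) (M / u)
    (by field_simp <;> ring)
  have r3 := ((r2.addc hs (a := 0) (by norm_num)).div r1).cg hs 1 (by norm_num) (1 / u)
    (by field_simp <;> ring)
  have r4 := ((r3.addc hs (a := 1 / 4) (by norm_num)).div r2).cg hs 2 (by norm_num) ((u / 4 + 1) / M)
    (by field_simp <;> ring)
  have r5 := ((r4.addc hs (a := 0) (by norm_num)).div r3).cg hs 3 (by norm_num) (u * (u / 4 + 1) / M)
    (by field_simp <;> ring)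
  have c6 : u * (u / 4 + 1) / M ≤ 100 / M * (2) := by
    rw [div_mul_eq_mul_div]; exact div_le_div_of_nonneg_right (by nlinarith) hM0.le
  have r6 := ((r5.absR hs (a := 2) (by norm_num) c6).div r4).cg hs 6 (by norm_num) (2 * M / (u / 4 + 1))
    (by field_simp <;> ring)
  have r7 := ((r6.addc hs (a := 0) (by norm_num)).div r5).cg hs 9 (by norm_num) (2 * M ^ 2 / (u * (u / 4 + 1) ^ 2))
    (by field_simp <;> ring)
  have c8 : (1 / 4 : ℝ) ≤ 100 / M * (2 * M ^ 2 / (u * (u / 4 + 1) ^ 2)) := by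
    rw [div_mul_div_comm, le_div_iff₀ (by positivity)]
    have h5 : u / 4 + 1 ≤ 2 := by linarith
    have : u * (u / 4 + 1) ^ 2 ≤ 4 * 2 ^ 2 := by gcongr
    nlinarith [mul_le_mul_of_nonneg_left this hM0.le]
  have r8 := ((r7.absL hs (a := 1 / 4) (by norm_num) c8).div r6).cg hs 16 (by norm_num) (M / (u * (u / 4 + 1)))
    (by field_simp <;> ring)
  have r9 := ((r8.addc hs (a := 0) (by norm_num)).div r7).cg hs 25 (by norm_num) ((u / 4 + 1) / (2 * M))
    (by field_simp <;> ring)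
  have c10 : (u / 4 + 1) / (2 * M) ≤ 100 / M * (2) := by
    rw [div_le_iff₀ (by positivity)]; field_simp; nlinarith
  have r10 := ((r9.absR hs (a := 2) (by norm_num) c10).div r8).cg hs 42 (by norm_num) (2 * u * (u / 4 + 1) / M)
    (by field_simp <;> ring)
  have r11 := ((r10.addc hs (a := 0) (by norm_num)).div r9).cg hs 67 (by norm_num) (4 * u)
    (by field_simp <;> ring)
  have r12 := ((r11.addc hs (a := 1 / 4) (by norm_num)).div r10).cg hs 109 (by norm_num) ((1 / 4 + 4 * u) * M / (2 * u * (u / 4 + 1)))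
    (by field_simp <;> ring)
  have r13 := ((r12.addc hs (a := 0) (by norm_num)).div r11).cg hs 176 (by norm_num) ((1 / 4 + 4 * u) * M / (8 * u ^ 2 * (u / 4 + 1)))
    (by field_simp <;> ring)
  have c14 : (2 : ℝ) ≤ 100 / M * ((1 / 4 + 4 * u) * M / (8 * u ^ 2 * (u / 4 + 1))) := by
    rw [div_mul_div_comm, le_div_iff₀ (by positivity)]
    have : 16 * u ^ 2 * (u / 4 + 1) ≤ 100 * (1 / 4 + 4 * u) := by nlinarith
    nlinarith [mul_le_mul_of_nonneg_left this hM0.le]
  have r14 := ((r13.absL hs (a := 2) (by norm_num) c14).div r12).cg hs 286 (by norm_num) (1 / (4 * u))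
    (by field_simp <;> ring)
  have r15 := ((r14.addc hs (a := 0) (by norm_num)).div r13).cg hs 462 (by norm_num) (2 * u * (u / 4 + 1) / ((1 / 4 + 4 * u) * M))
    (by field_simp <;> ring)
  have c16 : 2 * u * (u / 4 + 1) / ((1 / 4 + 4 * u) * M) ≤ 100 / M * (1 / 4) := by
    rw [div_le_iff₀ (by positivity)]; field_simp; nlinarith
  have r16 := ((r15.absR hs (a := 1 / 4) (by norm_num) c16).div r14).cg hs 749 (by norm_num) (u)
    (by field_simp <;> ring)
  have r17 := ((r16.addc hs (a := 0) (by norm_num)).div r15).cg hs 1211 (by norm_num) ((1 / 4 + 4 * u) * M / (2 * (u / 4 + 1)))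
    (by field_simp <;> ring)
  exact ⟨r16.cg hs _ (by norm_num) _ rfl, r17⟩

lemma four : ¬ Good 4 := by
  refine not_good [0, 1 / 4, 0] (by simp) (by norm_num) (3, 10 ^ 7) (by norm_num) (by norm_num)
    fun B => ?_
  set G := run [2, 0, 1 / 4, 0]
  let E : ℝ → ℝ := fun M => Real.exp (((1211 : ℕ) : ℝ) * (100 / M))
  have key : ∀ k : ℕ, (k : ℝ) + 1 ≤ (G^[4 * k] (3, 10 ^ 7)).2 ∧
      2 * E (G^[4 * k] (3, 10 ^ 7)).2 ^ 2 ≤ (G^[4 * k] (3, 10 ^ 7)).1 ∧
      (G^[4 * k] (3, 10 ^ 7)).1 * E (G^[4 * k] (3, 10 ^ 7)).2 ^ 2 ≤ 4 := by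
    intro k
    induction k with
    | zero =>
      have h1 : E (10 ^ 7) ≤ 1 / (1 - ((1211 : ℕ) : ℝ) * (100 / 10 ^ 7)) :=
        Real.exp_bound_div_one_sub_of_interval (by positivity) (by norm_num)
      have h2 : E (10 ^ 7) ≤ 11 / 10 := h1.trans (by norm_num)
      have h3 : 0 < E (10 ^ 7) := Real.exp_pos _
      have h4 : E (10 ^ 7) ^ 2 ≤ (11 / 10) ^ 2 := by gcongr
      show ((0 : ℕ) : ℝ) + 1 ≤ 10 ^ 7 ∧ 2 * E (10 ^ 7) ^ 2 ≤ 3 ∧ 3 * E (10 ^ 7) ^ 2 ≤ 4
      generalize E (10 ^ 7) = e at h4 ⊢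
      exact ⟨by norm_num, by linarith, by linarith⟩
    | succ k ih =>
      rw [show 4 * (k + 1) = 4 + 4 * k by ring, Function.iterate_add_apply]
      obtain ⟨a, b, c⟩ := ih
      generalize G^[4 * k] (3, 10 ^ 7) = t at a b c ⊢
      obtain ⟨u, M⟩ := t
      simp only at a b c
      have hk : (0 : ℝ) ≤ k := by positivity
      have hM0 : 0 < M := by linarith
      have e1 : 1 ≤ E M := Real.one_le_exp (by positivity)
      have e0 : 1 ≤ E M ^ 2 := one_le_pow₀ e1
      have hu : 2 ≤ u := by linarith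
      have hu' : u ≤ 4 := by nlinarith
      have e2 : E M ≤ 11 / 8 := by
        by_contra hc
        push Not at hc
        have : (11 / 8) ^ 2 ≤ E M ^ 2 := by gcongr
        nlinarith
      obtain ⟨⟨p1, -, p3, p4⟩, ⟨q1, -, -, q4⟩⟩ := core4 u M hu hu' (by linarith)
      change _ ≤ E M * _ at p3 p4 q4
      generalize G^[4] (u, M) = t at p1 p3 p4 q1 q4 ⊢
      obtain ⟨v, N⟩ := t
      simp only at p1 p3 p4 q1 q4 ⊢
      have f1 : 11 / 4 * M ≤ (1 / 4 + 4 * u) * M / (2 * (u / 4 + 1)) := by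
        rw [le_div_iff₀ (by positivity)]
        nlinarith
      have f2 : 2 * M ≤ N := by nlinarith
      have f3 : E N ^ 2 ≤ E M := by
        simp only [E]
        rw [← Real.exp_nat_mul]
        refine Real.exp_le_exp.2 ?_
        have : 100 / N ≤ 100 / (2 * M) := by gcongr
        have h2 : 100 / (2 * M) = 100 / M / 2 := by field_simp
        push_cast
        linarith
      refine ⟨by push_cast; linarith, ?_, ?_⟩
      · have : 2 * E M ≤ v := by
          by_contra hc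
          push Not at hc
          nlinarith
        linarith
      · have : v * E M ≤ 4 := by nlinarith
        nlinarith
  obtain ⟨k, hk⟩ := exists_nat_gt B
  exact ⟨4 * k, Or.inr (Or.inl (by linarith [(key k).1]))⟩

/-- The invariant of the two-periodic recursion. -/
noncomputable def V (a b x y : ℝ) : ℝ :=
  (a * x ^ 2 * y + b * x * y ^ 2 + b * x ^ 2 + a * y ^ 2 + (b ^ 2 + a) * x + (b + a ^ 2) * y +
    a * b) / (x * y)

lemma V_step (a b x y : ℝ) (ha : 0 ≤ a) (hx : 0 < x) (hy : 0 < y) :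
    V b a y ((a + y) / x) = V a b x y := by
  unfold V
  field_simp
  ring

lemma two : Good 2 := by
  intro α h0 hp hq x x0 x1 hx
  have pos : ∀ n, 0 < x n ∧ 0 < x (n + 1) := by
    intro n
    induction n with
    | zero => exact ⟨x0, x1⟩
    | succ n ih =>
      obtain ⟨a, b⟩ := ih
      have := h0 n
      exact ⟨b, by rw [hx]; positivity⟩
  have inv : ∀ n, V (α n) (α (n + 1)) (x n) (x (n + 1)) = V (α 0) (α 1) (x 0) (x 1) := by
    intro n
    induction n with
    | zero => rfl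
    | succ n ih =>
      rw [← ih, hx, show n + 1 + 1 = n + 2 by ring, hp]
      exact V_step _ _ _ _ (h0 n) (pos n).1 (pos n).2
  have sum : ∀ n, α n + α (n + 1) = α 0 + α 1 ∧ α n * α (n + 1) = α 0 * α 1 := by
    intro n
    induction n with
    | zero => exact ⟨rfl, rfl⟩
    | succ n ih =>
      rw [show n + 1 + 1 = n + 2 by ring, hp, add_comm, mul_comm]
      exact ih
  have spos : 0 < α 0 + α 1 := by
    by_contra hc
    refine hq 1 one_pos one_lt_two fun n => ?_
    linarith [(sum n).1, h0 n, h0 (n + 1), h0 0, h0 1]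
  set W := V (α 0) (α 1) (x 0) (x 1)
  set c := (α 0 + α 1) / 2 with hc
  have c0 : 0 < c := by positivity
  refine ⟨W / c + W / c * (W / c), ?_⟩
  rintro _ ⟨n, rfl⟩
  have hv := inv n
  obtain ⟨p1, p2⟩ := pos n
  have a0 := h0 n
  have b0 := h0 (n + 1)
  have hs := (sum n).1
  generalize α n = a at *
  generalize α (n + 1) = b at *
  generalize x n = u at *
  generalize x (n + 1) = v at *
  have e : W = a * u + b * v + b * u / v +
      (a * v ^ 2 + (b ^ 2 + a) * u + (b + a ^ 2) * v + a * b) / (u * v) := by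
    rw [← hv, V]
    field_simp
    ring
  have t1 : 0 ≤ a * u := by positivity
  have t2 : 0 ≤ b * v := by positivity
  have t3 : 0 ≤ b * u / v := by positivity
  have t4 : 0 ≤ (a * v ^ 2 + (b ^ 2 + a) * u + (b + a ^ 2) * v + a * b) / (u * v) := by positivity
  have W0 : 0 ≤ W / c := div_nonneg (by linarith) c0.le
  rcases le_total a b with h | h
  · have hb : c ≤ b := by linarith
    have g1 : v ≤ W / c := by rw [le_div_iff₀ c0]; nlinarith
    have g2 : u / v ≤ W / c := by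
      rw [le_div_iff₀ c0]
      have : u / v * c ≤ b * u / v := by
        rw [mul_div_assoc, mul_comm]; gcongr
      linarith
    rw [div_le_iff₀ p2] at g2
    nlinarith
  · have ha : c ≤ a := by linarith
    have g1 : u ≤ W / c := by rw [le_div_iff₀ c0]; nlinarith
    nlinarith

theorem result (p : ℕ) (hp : 2 ≤ p) : Good p ↔ p = 2 := by
  refine ⟨fun h => ?_, fun h => h ▸ two⟩
  by_contra hne
  have h4 : p ≠ 4 := fun e => four (e ▸ h)
  have : (∃ b, p = 2 + 6 * b + 1) ∨ (∃ b, p = 2 + 6 * b + 5 + 1) ∨ (∃ b, p = 4 + 6 * b + 1) ∨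
      (∃ b, p = 4 + 6 * b + 5 + 1) ∨ (∃ b, p = 5 + 6 * b + 1) ∨ (∃ b, p = 6 + 6 * b + 1) := by
    have : p % 6 = 0 ∨ p % 6 = 1 ∨ p % 6 = 2 ∨ p % 6 = 3 ∨ p % 6 = 4 ∨ p % 6 = 5 := by omega
    rcases this with h | h | h | h | h | h
    · exact Or.inr (Or.inr (Or.inr (Or.inr (Or.inl ⟨p / 6 - 1, by omega⟩))))
    · exact Or.inr (Or.inr (Or.inr (Or.inr (Or.inr ⟨p / 6 - 1, by omega⟩))))
    · exact Or.inr (Or.inl ⟨p / 6 - 1, by omega⟩)
    · exact Or.inl ⟨p / 6, by omega⟩
    · exact Or.inr (Or.inr (Or.inr (Or.inl ⟨p / 6 - 1, by omega⟩)))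
    · exact Or.inr (Or.inr (Or.inl ⟨p / 6, by omega⟩))
  rcases this with ⟨b, rfl⟩ | ⟨b, rfl⟩ | ⟨b, rfl⟩ | ⟨b, rfl⟩ | ⟨b, rfl⟩ | ⟨b, rfl⟩
  · exact (three b).1 h
  · exact (three b).2 h
  · exact (five b).1 h
  · exact (five b).2 h
  · exact six b h
  · exact seven b h

end Pool.Agent.Results.MP_e65cda_an.OnlyTwo
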